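import Pool.Agent.W290.LG.Stm2

/-!
# Project LG, part 2, task H: from coefficients to a representation
-/

set_option autoImplicit false

namespace Pool.Agent.W113.LG

open Pool.Agent Pool.Agent.NPC Pool.Agent.H881R2.Mat Pool.Agent.W290.LG

/-- the set of indices listed in `l` -/
def St (n : ℕ) (l : List ℕ) : Finset (Fin n) := Finset.univ.filter (fun i => (i : ℕ) ∈ l)

theorem mem_St {n : ℕ} {l : List ℕ} {i : Fin n} : i ∈ St n l ↔ (i : ℕ) ∈ l := by
  simp [St]

theorem sum_St {n : ℕ} {l : List ℕ} (h1 : l.Pairwise (· < ·)) (h2 : ∀ i ∈ l, i < n)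
    (f : ℕ → ℚ) : (l.map f).sum = ∑ i ∈ St n l, f i := by
  have hnd : l.Nodup := h1.imp (fun h => ne_of_lt h)
  rw [← List.sum_toFinset f hnd]
  have : l.toFinset = (St n l).map Fin.valEmbedding := by
    ext x
    simp only [List.mem_toFinset, Finset.mem_map, mem_St, Fin.valEmbedding_apply]
    constructor
    · intro hx
      exact ⟨⟨x, h2 x hx⟩, hx, rfl⟩
    · rintro ⟨a, ha, rfl⟩
      exact ha
  rw [this, Finset.sum_map]
  rfl

theorem notMem_of_indep {n : ℕ} {V : Type} [AddCommGroup V] [Module ℚ V] (v : Fin n → V)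
    (B : Finset (Fin n)) (h : LinearIndependent ℚ (fun i : B => v i)) (j : Fin n) (hj : j ∈ B) :
    v j ∉ Submodule.span ℚ (v '' {x | x ∈ B ∧ x ≠ j}) := by
  have h1 := h.notMem_span_image (s := {x : B | x.1 ≠ j}) (x := ⟨j, hj⟩) (by simp)
  have h2 : (fun i : B => v i) '' {x : B | x.1 ≠ j} = v '' {x | x ∈ B ∧ x ≠ j} := by
    ext y
    simp only [Set.mem_image, Set.mem_ofPred_eq]
    constructor
    · rintro ⟨x, hx, rfl⟩
      exact ⟨x.1, ⟨x.2, hx⟩, rfl⟩
    · rintro ⟨x, ⟨hx, hx'⟩, rfl⟩
      exact ⟨⟨x, hx⟩, hx', rfl⟩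
  rw [h2] at h1
  exact h1

theorem t_H : Pool.Agent.W290.LG.S_H := by
  rintro ⟨n, L⟩ hV hne ⟨c, hc⟩
  simp only at hne hc
  classical
  -- first entry
  obtain ⟨l0, hl0⟩ : ∃ l0, L[0]? = some l0 := by
    cases L with
    | nil => exact absurd rfl hne
    | cons a t => exact ⟨a, rfl⟩
  have hflat : ∀ {b : ℕ} {l : List ℕ}, L[b]? = some l → ∀ {x : ℕ}, x ∈ l → x ∈ L.flatten := by
    intro b l hl x hx
    exact List.mem_flatten.2 ⟨l, List.mem_of_getElem? hl, hx⟩
  have hT : ∀ (b : ℕ) (l : List ℕ), L[b]? = some l → ∀ (b' : ℕ) (l' : List ℕ),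
      L[b']? = some l' → ∀ j ∈ L.flatten, ∀ m ∈ L.flatten,
      ∑ k ∈ St n l, c b j k * c b' k m = c b' j m := by
    intro b l hl b' l' hl' j hj m hm
    have hv := hV l (List.mem_of_getElem? hl)
    have := hc.tr b l hl b' l' hl' j hj m hm
    rw [sum_St hv.1 hv.2 (fun k => c b j k * c b' k m)] at this
    exact this
  set v : Fin n → (Fin n → ℚ) := fun j k =>
    if (j : ℕ) ∈ L.flatten ∧ (k : ℕ) ∈ L.flatten then c 0 j k else 0 with hvdef
  -- expansion
  have hexp : ∀ (b : ℕ) (l : List ℕ), L[b]? = some l → ∀ j : Fin n, (j : ℕ) ∈ L.flatten →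
      v j = ∑ k ∈ St n l, c b j k • v k := by
    intro b l hl j hj
    funext m
    rw [Finset.sum_apply]
    by_cases hm : (m : ℕ) ∈ L.flatten
    · have h1 := hT b l hl 0 l0 hl0 j hj m hm
      simp only [hvdef, Pi.smul_apply, smul_eq_mul]
      rw [if_pos ⟨hj, hm⟩, ← h1]
      refine Finset.sum_congr rfl (fun k hk => ?_)
      rw [if_pos ⟨hflat hl (mem_St.1 hk), hm⟩]
    · simp only [hvdef, Pi.smul_apply, smul_eq_mul]
      rw [if_neg (fun h => hm h.2)]
      symm
      refine Finset.sum_eq_zero (fun k hk => ?_)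
      rw [if_neg (fun h => hm h.2), mul_zero]
  -- independence
  have hind : ∀ (b : ℕ) (l : List ℕ), L[b]? = some l →
      LinearIndependent ℚ (fun i : St n l => v i) := by
    intro b l hl
    rw [Fintype.linearIndependent_iff]
    intro a ha k'
    have ha' : ∀ m : Fin n, (m : ℕ) ∈ L.flatten →
        ∑ k : St n l, a k * c 0 (k : Fin n) m = 0 := by
      intro m hm
      have := congrFun ha m
      rw [Finset.sum_apply] at this
      simp only [hvdef, Pi.smul_apply, smul_eq_mul, Pi.zero_apply] at this
      rw [← this]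
      refine Finset.sum_congr rfl (fun k _ => ?_)
      rw [if_pos ⟨hflat hl (mem_St.1 k.2), hm⟩]
    have h1 : ∑ k : St n l, a k * (∑ m ∈ St n l0, c 0 (k : Fin n) m * c b m (k' : Fin n)) =
        a k' := by
      have h2 : ∀ k : St n l, a k * (∑ m ∈ St n l0, c 0 (k : Fin n) m * c b m (k' : Fin n)) =
          a k * (if k = k' then 1 else 0) := by
        intro k
        rw [hT 0 l0 hl0 b l hl _ (hflat hl (mem_St.1 k.2)) _ (hflat hl (mem_St.1 k'.2)),
          hc.one b l hl _ (mem_St.1 k.2) _ (mem_St.1 k'.2)]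
        by_cases hkk : k = k'
        · subst hkk
          simp
        · rw [if_neg hkk, if_neg]
          intro h
          exact hkk (Subtype.ext (Fin.ext h))
      rw [Finset.sum_congr rfl (fun k _ => h2 k)]
      simp
    have h3 : ∑ k : St n l, a k * (∑ m ∈ St n l0, c 0 (k : Fin n) m * c b m (k' : Fin n)) =
        ∑ m ∈ St n l0, (∑ k : St n l, a k * c 0 (k : Fin n) m) * c b m (k' : Fin n) := by
      simp only [Finset.mul_sum, Finset.sum_mul]
      rw [Finset.sum_comm]
      refine Finset.sum_congr rfl (fun m _ => Finset.sum_congr rfl (fun k _ => ?_))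
      ring
    rw [← h1, h3]
    refine Finset.sum_eq_zero (fun m hm => ?_)
    rw [ha' m (hflat hl0 (mem_St.1 hm)), zero_mul]
  have hspan : ∀ (b : ℕ) (l : List ℕ), L[b]? = some l →
      Submodule.span ℚ (v '' (St n l : Set (Fin n))) = Submodule.span ℚ (Set.range v) := by
    intro b l hl
    apply le_antisymm
    · exact Submodule.span_mono (Set.image_subset_range _ _)
    · rw [Submodule.span_le]
      rintro _ ⟨j, rfl⟩
      by_cases hj : (j : ℕ) ∈ L.flatten
      · rw [hexp b l hl j hj]
        refine Submodule.sum_mem _ (fun k hk => Submodule.smul_mem _ _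
          (Submodule.subset_span ⟨k, hk, rfl⟩))
      · have : v j = 0 := by
          funext k
          simp only [hvdef, Pi.zero_apply]
          rw [if_neg (fun h => hj h.1)]
        rw [this]
        exact Submodule.zero_mem _
  refine ⟨n, v, fun B => ⟨?_, ?_⟩⟩
  · rintro ⟨l, hl, hB⟩
    obtain ⟨b, hb⟩ := List.mem_iff_getElem?.1 hl
    have hBS : B = St n l := by
      ext i
      rw [mem_St]
      exact hB i
    subst hBS
    exact ⟨hind b l hb, hspan b l hb⟩
  · rintro ⟨hBi, hBs⟩
    -- maximal intersection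
    obtain ⟨l, hlm, hmax⟩ : ∃ l ∈ L, ∀ l' ∈ L, (St n l' ∩ B).card ≤ (St n l ∩ B).card := by
      have hfin : L.toFinset.Nonempty := by
        rw [List.toFinset_nonempty_iff]
        exact hne
      obtain ⟨l, hl, hm⟩ := L.toFinset.exists_max_image (fun l => (St n l ∩ B).card) hfin
      exact ⟨l, List.mem_toFinset.1 hl, fun l' hl' => hm l' (List.mem_toFinset.2 hl')⟩
    obtain ⟨b, hb⟩ := List.mem_iff_getElem?.1 hlm
    by_cases hsub : B ⊆ St n l
    · refine ⟨l, hlm, ?_⟩
      have hEq : B = St n l := by
        refine Finset.Subset.antisymm hsub (fun k hk => ?_)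
        by_contra hkB
        refine notMem_of_indep v (St n l) (hind b l hb) k hk ?_
        have h1 : v k ∈ Submodule.span ℚ (v '' (B : Set (Fin n))) := by
          rw [hBs]
          exact Submodule.subset_span ⟨k, rfl⟩
        refine Submodule.span_mono (Set.image_mono ?_) h1
        intro x hx
        refine ⟨hsub hx, ?_⟩
        rintro rfl
        exact hkB hx
      intro i
      rw [hEq, mem_St]
    · exfalso
      obtain ⟨j, hjB, hjl⟩ := Finset.not_subset.1 hsub
      have hjn := notMem_of_indep v B hBi j hjB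
      have hjF : (j : ℕ) ∈ L.flatten := by
        by_contra hj
        apply hjn
        have : v j = 0 := by
          funext k
          simp only [hvdef, Pi.zero_apply]
          rw [if_neg (fun h => hj h.1)]
        rw [this]
        exact Submodule.zero_mem _
      have hjl' : (j : ℕ) ∉ l := fun h => hjl (mem_St.2 h)
      obtain ⟨k, hkl, hkB, hck⟩ : ∃ k : Fin n, k ∈ St n l ∧ k ∉ B ∧ c b j k ≠ 0 := by
        by_contra hcon
        push Not at hcon
        apply hjn
        rw [hexp b l hb j hjF]
        refine Submodule.sum_mem _ (fun k hk => ?_)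
        by_cases hkB : k ∈ B
        · refine Submodule.smul_mem _ _ (Submodule.subset_span ⟨k, ⟨hkB, ?_⟩, rfl⟩)
          rintro rfl
          exact hjl hk
        · rw [hcon k hk hkB, zero_smul]
          exact Submodule.zero_mem _
      have hex := (hc.ex b l hb j hjF hjl' k (mem_St.1 hkl)).1 hck
      unfold exch at hex
      rw [List.any_eq_true] at hex
      obtain ⟨l', hl', hp⟩ := hex
      simp only [Bool.and_eq_true, decide_eq_true_eq, List.all_eq_true, Bool.or_eq_true,
        Bool.not_eq_true', decide_eq_false_iff_not] at hp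
      obtain ⟨hp1, hp2, hp3⟩ := hp
      have hm := hmax l' hl'
      have hss : insert j (St n l ∩ B) ⊆ St n l' ∩ B := by
        intro x hx
        rw [Finset.mem_insert] at hx
        rw [Finset.mem_inter, mem_St]
        rcases hx with rfl | hx
        · exact ⟨hp1, hjB⟩
        · rw [Finset.mem_inter, mem_St] at hx
          refine ⟨?_, hx.2⟩
          rcases hp3 x hx.1 with h | h
          · exfalso
            apply hkB
            have : x = k := Fin.ext h
            rw [← this]
            exact hx.2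
          · exact h
      have hcard := Finset.card_le_card hss
      rw [Finset.card_insert_of_notMem] at hcard
      · omega
      · rw [Finset.mem_inter]
        exact fun h => hjl h.1

end Pool.Agent.W113.LG
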